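import Pool.Agent.MWFE.StmtsA

/-!
# Row LQI of squad MWFE
-/

set_option autoImplicit false

namespace Pool.Agent.MWFE.H32

open Pool.Agent.Helper14_MV Pool.Agent.Helper2_MV Pool.Agent.MVD
open Pool.Agent.MWE (Can XX fxy dxy dx dy up cp L4 pr Xs xl isx Fs nd nr)
open Pool.Agent.MWGR (cb)

/-- the substitution `2 ↦ 0^c 2` -/
def gs (c : ℕ) (a : ℕ) : List ℕ := if a = 2 then List.replicate c 0 ++ [2] else [a]

theorem rep_gs (c i : ℕ) : (List.replicate i 0).flatMap (gs c) = List.replicate i 0 := by
  induction i with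
  | zero => rfl
  | succ i ih =>
    rw [List.replicate_succ, List.flatMap_cons, ih]
    rfl

theorem cw_gs (c i k : ℕ) : (cw i k).flatMap (gs c) = cw i (k + c) := by
  unfold cw
  rw [List.flatMap_append, List.flatMap_cons, List.flatMap_append, rep_gs, rep_gs]
  have e1 : gs c 3 = [3] := rfl
  have e2 : [2, 3].flatMap (gs c) = List.replicate c 0 ++ [2, 3] := by
    simp [gs]
  rw [e1, e2, ← List.append_assoc (List.replicate k 0), List.replicate_append_replicate]
  rfl

theorem cw_pre (m i k : ℕ) : List.replicate m 0 ++ cw i k = cw (m + i) k := by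
  unfold cw
  rw [← List.append_assoc, List.replicate_append_replicate]

theorem cw_filter (i k : ℕ) :
    (cw i k).filter (fun a => a == 0) = List.replicate (i + k) 0 := by
  unfold cw
  rw [← List.replicate_append_replicate]
  simp [List.filter_append]

theorem lqi (_hPWL : PwlStmt) (hFIL : FilStmt) : LqiStmt := by
  intro n β hz i k j l hik hjl h i' j' k' l' hi hj hkl h1 h2 h3 h4
  have hn := hz.n2
  have hsum : i + k ≡ j + l [MOD n] := by
    have h5 := h.filter (fun a => a == 0)
    rw [cw_filter, cw_filter] at h5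
    exact hz.ex _ _ hik hjl h5
  have hkc : k + ((n - 1) * k + k') = n * k + k' := by
    obtain ⟨t, rfl⟩ : ∃ t, n = t + 1 := ⟨n - 1, by omega⟩
    rw [Nat.add_sub_cancel]
    ring
  generalize hc : (n - 1) * k + k' = c at hkc
  have hkk : k' ≡ k + (n + c) [MOD n] := by
    have e : k + (n + c) = n * (k + 1) + k' := by
      have e1 : k + (n + c) = n + (k + c) := by ring
      rw [e1, hkc]
      ring
    rw [e]
    unfold Nat.ModEq
    rw [Nat.mul_add_mod]
  have hii : i' ≡ n + i [MOD n] := by
    refine hi.trans ?_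
    unfold Nat.ModEq
    rw [Nat.add_mod_left]
  have hjj : j' ≡ n + j [MOD n] := by
    refine hj.trans ?_
    unfold Nat.ModEq
    rw [Nat.add_mod_left]
  have hll : l' ≡ l + (n + c) [MOD n] := by
    have e1 : j + l' ≡ j + (l + (n + c)) [MOD n] := by
      have a1 : j + l' ≡ j' + l' [MOD n] := (hj.symm).add_right l'
      have a2 : j' + l' ≡ i' + k' [MOD n] := hkl.symm
      have a3 : i' + k' ≡ i + (k + (n + c)) [MOD n] := hi.add hkk
      have a4 : i + (k + (n + c)) ≡ (j + l) + (n + c) [MOD n] := by
        rw [← Nat.add_assoc]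
        exact hsum.add_right (n + c)
      have a5 : (j + l) + (n + c) = j + (l + (n + c)) := Nat.add_assoc _ _ _
      rw [a5] at a4
      exact ((a1.trans a2).trans a3).trans a4
    exact Nat.ModEq.add_left_cancel' j e1
  have hcnt : 2 ≤ ([] ++ 3 :: [2, 3] : List ℕ).count 3 := by decide
  have H1 : RR β (cw (n + i) (k + (n + c))) (cw (n + j) (l + (n + c))) := by
    have h6 := (RR.refl (β := β) (List.replicate n 0)).append (h.sub (gs (n + c)))
    rw [cw_gs, cw_gs, cw_pre, cw_pre] at h6
    exact h6
  have F1 : RR β (cw i' k') (cw (n + i) (k + (n + c))) :=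
    hFIL n β hz [] [2, 3] 0 3 i' k' (n + i) (k + (n + c)) (by decide) hii hkk h1 h3
      (by omega) (by omega) hcnt
  have F2 : RR β (cw j' l') (cw (n + j) (l + (n + c))) :=
    hFIL n β hz [] [2, 3] 0 3 j' l' (n + j) (l + (n + c)) (by decide) hjj hll h2 h4
      (by omega) (by omega) hcnt
  exact β.trans (β.trans F1 H1) (RR.symm F2)

end Pool.Agent.MWFE.H32
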